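import Pool.Agent.Lib.H22I.Own

set_option autoImplicit false

namespace Pool.Agent.Results.MP_ff42d4_co.GenericRadiiStress

/-- A packing of `n` closed balls in `ℝ^d`: the ball `i` has centre `center i` and radius
`radius i > 0`, and the balls have pairwise disjoint interiors. -/
structure Packing (d n : ℕ) where
  /-- the centres -/
  center : Fin n → EuclideanSpace ℝ (Fin d)
  /-- the radii -/
  radius : Fin n → ℝ
  radius_pos : ∀ i, 0 < radius i
  disjoint_interiors : ∀ i j, i ≠ j →
    Disjoint (interior (Metric.closedBall (center i) (radius i)))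
      (interior (Metric.closedBall (center j) (radius j)))

/-- The contact graph: `i` and `j` are joined exactly when the two balls touch, that is, when the
distance of the centres is the sum of the radii. -/
def Packing.contactGraph {d n : ℕ} (P : Packing d n) : SimpleGraph (Fin n) where
  Adj i j := i ≠ j ∧ dist (P.center i) (P.center j) = P.radius i + P.radius j
  symm := ⟨fun i j h => ⟨h.1.symm, by rw [dist_comm, add_comm]; exact h.2⟩⟩
  loopless := ⟨fun i h => h.1 rfl⟩

/-- Generic radii: the radii are algebraically independent over `ℚ`. -/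
def Packing.GenericRadii {d n : ℕ} (P : Packing d n) : Prop :=
  AlgebraicIndependent ℚ P.radius

open Classical in
/-- The packing supports an edge-length equilibrium stress: there is a nonzero vector `ω`, indexed
by the edges of the contact graph, with `∑_{j : ij ∈ E} ω_{ij} (p_j - p_i) = 0` for every `i`. -/
def Packing.SupportsStress {d n : ℕ} (P : Packing d n) : Prop :=
  ∃ ω : P.contactGraph.edgeSet → ℝ, ω ≠ 0 ∧
    ∀ i : Fin n, ∑ j : Fin n,
      (if h : P.contactGraph.Adj i j then
        ω ⟨s(i, j), (SimpleGraph.mem_edgeSet _).2 h⟩ • (P.center j - P.center i) else 0) = 0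

/-- For every `d ≥ 3` and every `n ≥ 16` some packing of `n` balls in `ℝ^d` with generic radii
supports a nonzero edge-length equilibrium stress. -/
theorem result (d : ℕ) (hd : 3 ≤ d) (n : ℕ) (hn : 16 ≤ n) :
    ∃ P : Packing d n, P.GenericRadii ∧ P.SupportsStress := by
  classical
  obtain ⟨r, p, ω, h1, h2, h3, h4, h5, ⟨a, b, h6⟩, h7⟩ :=
    Pool.Agent.Lib.H22I.hasPack_all d hd n hn
  have hdisj : ∀ i j, i ≠ j → Disjoint (interior (Metric.closedBall (p i) (r i)))
      (interior (Metric.closedBall (p j) (r j))) := by
    intro i j hij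
    rw [interior_closedBall _ (h1 i).ne', interior_closedBall _ (h1 j).ne']
    exact Metric.ball_disjoint_ball (h3 i j hij)
  let P : Packing d n := ⟨p, r, h1, hdisj⟩
  refine ⟨P, h2, fun e => Sym2.lift ⟨ω, h4⟩ e.1, ?_, ?_⟩
  · intro h0
    have hab : P.contactGraph.Adj a b := h5 a b h6
    have := congrFun h0 ⟨s(a, b), (SimpleGraph.mem_edgeSet _).2 hab⟩
    exact h6 this
  · intro i
    refine Eq.trans ?_ (h7 i)
    apply Finset.sum_congr rfl
    intro j _
    by_cases h : P.contactGraph.Adj i j
    · rw [dif_pos h]
      rfl
    · rw [dif_neg h]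
      have h0 : ω i j = 0 := by
        by_contra hne
        exact h (h5 i j hne)
      rw [h0, zero_smul]

end Pool.Agent.Results.MP_ff42d4_co.GenericRadiiStress
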